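import Pool.Agent.H547.C9.Stm3

set_option autoImplicit false

/-!
# Assembly of five of the six congruences of MP_c9f782
-/

namespace Pool.Agent.H249.C9

open Finset Pool.Agent.H547.P3 Pool.Agent.H547.P4 Pool.Agent.H547.C9

section

variable {p : ℕ} [hp : Fact p.Prime]

/-! ### transfer -/

theorem rep_unique {x : ℚ} {ξ η : ZMod (p ^ 3)} (h1 : Rep p x ξ) (h2 : Rep p x η) : ξ = η := by
  obtain ⟨N, D, hD, hN, hx⟩ := h1.sub h2
  rw [sub_self, zero_mul] at hN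
  have hN0 : N = 0 := by exact_mod_cast hN.symm
  rw [hN0, Int.cast_zero] at hx
  obtain ⟨w, hw⟩ := inv_exists hD
  have h3 : ξ - η = 0 := by linear_combination (-w) * hx - (ξ - η) * hw
  exact sub_eq_zero.mp h3

theorem rep_pow {x : ℚ} {ξ : ZMod (p ^ 3)} (h1 : Rep p x ξ) (k : ℕ) : Rep p (x ^ k) (ξ ^ k) := by
  induction k with
  | zero =>
    rw [pow_zero, pow_zero]
    have := Rep.int (p := p) 1
    simpa using this
  | succ k ih =>
    rw [pow_succ, pow_succ]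
    exact ih.mul h1

/-- elements of `Zp` are represented -/
theorem rep_Zp {x : ℚ} (hx : x ∈ Pool.Agent.R439.PL.Zp p) : ∃ ξ : ZMod (p ^ 3), Rep p x ξ := by
  obtain ⟨a, b, hb, rfl⟩ := hx
  obtain ⟨w, hw⟩ := inv_exists hb
  have hb0 : (b : ℚ) ≠ 0 := by
    intro h0
    apply hb
    have : b = 0 := by exact_mod_cast h0
    rw [this]
    exact dvd_zero _
  exact ⟨(a : ZMod (p ^ 3)) * w, a, b, hb, div_mul_cancel₀ _ hb0, by linear_combination (-(a : ZMod (p ^ 3))) * hw⟩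

theorem rep_I {x : ℚ} (hx : Pool.Agent.R439.PL.I p 2 x) :
    ∃ y : ZMod (p ^ 3), Rep p x ((p : ZMod (p ^ 3)) ^ 2 * y) := by
  obtain ⟨y, hy, rfl⟩ := hx
  obtain ⟨η, hη⟩ := rep_Zp hy
  exact ⟨η, (rep_pow (Rep.nat p) 2).mul hη⟩

/-- from `I p 2` to `ZMod (p^3)` -/
theorem of_I {x : ℚ} {c : ℤ} (hx : Pool.Agent.R439.PL.I p 2 (x - c * p)) {ξ : ZMod (p ^ 3)} (h : Rep p x ξ) :
    ∃ y : ZMod (p ^ 3), ξ = (p : ZMod (p ^ 3)) * (c : ZMod (p ^ 3)) + (p : ZMod (p ^ 3)) ^ 2 * y := by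
  obtain ⟨y, hy⟩ := rep_I hx
  have h1 : Rep p (x - c * p + c * p) ((p : ZMod (p ^ 3)) ^ 2 * y + (c : ZMod (p ^ 3)) * (p : ZMod (p ^ 3))) :=
    hy.add ((Rep.int c).mul (Rep.nat p))
  rw [sub_add_cancel] at h1
  refine ⟨y, ?_⟩
  rw [rep_unique h h1]
  ring

/-- from `ZMod (p^3)` to the numerators -/
theorem dvd_num {x : ℚ} {y : ZMod (p ^ 3)} (h : Rep p x ((p : ZMod (p ^ 3)) ^ 2 * y)) : (p : ℤ) ^ 2 ∣ x.num := by
  have : NeZero (p ^ 3) := ⟨pow_ne_zero _ hp.out.ne_zero⟩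
  obtain ⟨N, D, hD, hN, hx⟩ := h
  have hy : y = ((y.val : ℤ) : ZMod (p ^ 3)) := by
    rw [Int.cast_natCast]
    exact (ZMod.natCast_zmod_val y).symm
  have h1 : ((N - D * ((p : ℤ) ^ 2 * (y.val : ℤ)) : ℤ) : ZMod (p ^ 3)) = 0 := by
    push_cast
    rw [ZMod.natCast_zmod_val, hx, sub_self]
  have h2 : ((p ^ 3 : ℕ) : ℤ) ∣ N - D * ((p : ℤ) ^ 2 * (y.val : ℤ)) := (ZMod.intCast_zmod_eq_zero_iff_dvd _ _).mp h1
  have h3 : (p : ℤ) ^ 2 ∣ N := by
    have h4 : (p : ℤ) ^ 2 ∣ ((p ^ 3 : ℕ) : ℤ) := ⟨p, by push_cast; ring⟩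
    have h5 : (p : ℤ) ^ 2 ∣ D * ((p : ℤ) ^ 2 * (y.val : ℤ)) := ⟨D * (y.val : ℤ), by ring⟩
    have h6 := dvd_add (h4.trans h2) h5
    rwa [sub_add_cancel] at h6
  have h4 : x.num * D = N * x.den := by
    have h5 : (x.den : ℚ) ≠ 0 := by exact_mod_cast x.den_nz
    have h6 : x * x.den = x.num := Rat.mul_den_eq_num x
    have h7 : (x.num : ℚ) * D = N * x.den := by
      rw [← hN, ← h6]
      ring
    exact_mod_cast h7
  have h5 : IsCoprime ((p : ℤ) ^ 2) D := by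
    apply IsCoprime.pow_left
    exact (Nat.prime_iff_prime_int.mp hp.out).coprime_iff_not_dvd.mpr hD
  exact h5.dvd_of_dvd_mul_right (h4 ▸ (h3.mul_right _))

theorem rep_SU {a b : ℤ} {z : ℚ} {ζ : ZMod (p ^ 3)} (hz : Rep p z ζ) (N : ℕ) :
    Rep p (SU a b z N) (∑ k ∈ range N, ((a : ZMod (p ^ 3)) * (k : ZMod (p ^ 3)) + (b : ZMod (p ^ 3))) * ((uc k : ZMod (p ^ 3)) * ζ ^ k)) := by
  unfold SU
  refine Rep.sum _ fun k _ => ?_
  have e : ((a : ℚ) * k + b) * (Nat.centralBinom k : ℚ) ^ 3 * z ^ k = ((a : ℚ) * k + b) * ((uc k : ℚ) * z ^ k) := by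
    unfold uc
    rw [Nat.centralBinom_eq_two_mul_choose]
    push_cast
    ring
  rw [e]
  exact (((Rep.int a).mul (Rep.nat k)).add (Rep.int b)).mul ((Rep.nat _).mul (rep_pow hz k))

theorem rep_T6 {a b m : ℤ} (hm : ¬ (p : ℤ) ∣ m) {w : ZMod (p ^ 3)} (hw : (m : ZMod (p ^ 3)) * w = 1) :
    Rep p (T6 a b m p) (∑ j ∈ range p, ((a : ZMod (p ^ 3)) * (j : ZMod (p ^ 3)) + (b : ZMod (p ^ 3))) * ((v1 j : ZMod (p ^ 3)) * w ^ j)) := by
  unfold T6
  refine Rep.sum _ fun k _ => ?_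
  have e : ((a : ℚ) * k + b) * (c k : ℚ) / (m : ℚ) ^ k = ((a : ℚ) * k + b) * ((v1 k : ℚ) * (1 / (m : ℚ) ^ k)) := by
    unfold v1 c
    push_cast
    ring
  rw [e]
  exact (((Rep.int a).mul (Rep.nat k)).add (Rep.int b)).mul ((Rep.nat _).mul (Rep.inv hm hw k))

/-- the final transfer -/
theorem cong_T6 {a b m : ℤ} (hm : ¬ (p : ℤ) ∣ m) {w : ZMod (p ^ 3)} (hw : (m : ZMod (p ^ 3)) * w = 1) {L : ℤ} {y : ZMod (p ^ 3)}
    (h : ∑ j ∈ range p, ((a : ZMod (p ^ 3)) * (j : ZMod (p ^ 3)) + (b : ZMod (p ^ 3))) * ((v1 j : ZMod (p ^ 3)) * w ^ j) =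
      (p : ZMod (p ^ 3)) * (L : ZMod (p ^ 3)) * (b : ZMod (p ^ 3)) + (p : ZMod (p ^ 3)) ^ 2 * y) :
    Cong p (T6 a b m p) (b * p * L) := by
  have h1 : Rep p (T6 a b m p - b * p * L) (_ - (b : ZMod (p ^ 3)) * (p : ZMod (p ^ 3)) * (L : ZMod (p ^ 3))) :=
    (rep_T6 hm hw).sub (((Rep.int b).mul (Rep.nat p)).mul (Rep.int L))
  have h2 : ∑ j ∈ range p, ((a : ZMod (p ^ 3)) * (j : ZMod (p ^ 3)) + (b : ZMod (p ^ 3))) * ((v1 j : ZMod (p ^ 3)) * w ^ j) -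
      (b : ZMod (p ^ 3)) * (p : ZMod (p ^ 3)) * (L : ZMod (p ^ 3)) = (p : ZMod (p ^ 3)) ^ 2 * y := by
    rw [h]
    ring
  rw [h2] at h1
  exact dvd_num h1

/-! ### good points -/

/-- `z` is good for `(a, b)` with sign `s` -/
structure Gd (p : ℕ) (h a b z s : ZMod (p ^ 3)) : Prop where
  e0 : ∃ y, WS p a b z 0 = (p : ZMod (p ^ 3)) * s * b + (p : ZMod (p ^ 3)) ^ 2 * y
  e1 : ∃ y, c1 h (WS p a b z) = (p : ZMod (p ^ 3)) * s * a + (p : ZMod (p ^ 3)) ^ 2 * y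

omit hp in
theorem WS_smul (lam a b z : ZMod (p ^ 3)) (κ : ℕ) : WS p (lam * a) (lam * b) z κ = lam * WS p a b z κ := by
  unfold WS
  rw [mul_left_comm]
  congr 1
  rw [mul_sum]
  refine sum_congr rfl fun j _ => ?_
  ring

omit hp in
theorem c2_smul (h lam a b z : ZMod (p ^ 3)) : c2 h (WS p (lam * a) (lam * b) z) = lam * c2 h (WS p a b z) := by
  unfold c2
  rw [WS_smul, WS_smul, WS_smul]
  ring

omit hp in
theorem c1_smul (h lam a b z : ZMod (p ^ 3)) : c1 h (WS p (lam * a) (lam * b) z) = lam * c1 h (WS p a b z) := by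
  unfold c1
  rw [c2_smul, WS_smul, WS_smul]
  ring

omit hp in
theorem gd_smul {h a b z s : ZMod (p ^ 3)} (lam : ZMod (p ^ 3)) (g : Gd p h a b z s) : Gd p h (lam * a) (lam * b) z s := by
  obtain ⟨⟨y0, e0⟩, ⟨y1, e1⟩⟩ := g
  refine ⟨⟨lam * y0, ?_⟩, ⟨lam * y1, ?_⟩⟩
  · rw [WS_smul, e0]
    ring
  · rw [c1_smul, e1]
    ring

variable {n : ℕ} {h : ZMod (p ^ 3)}

/-- the sum of the second kind at a good point -/
theorem gd_sum (h1 : S_E1) (h2 : S_E2) (hp53 : 53 ≤ p) (hn : p = 2 * n + 1) (hh : 2 * h = 1)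
    {z l li a b s a' b' : ZMod (p ^ 3)} (uz : IsUnit z) (hl : l = 1 - 16 * z) (hli : l * li = 1) (g : Gd p h a b z s)
    (ha : a * (2 + 16 * z) = a' * l) (hb : b = b' - 8 * z * li * a) :
    ∃ x : ZMod (p ^ 3), x ^ 2 = 1 ∧ red p x = (red p l) ^ n ∧ ∃ y : ZMod (p ^ 3),
      ∑ j ∈ range p, (a' * (j : ZMod (p ^ 3)) + b') * ((v1 j : ZMod (p ^ 3)) * (z ^ 2 * li ^ 3) ^ j) =
        (p : ZMod (p ^ 3)) * (x * s) * b' + (p : ZMod (p ^ 3)) ^ 2 * y := by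
  obtain ⟨x, hx, rx, k⟩ := h1 p n h z l li hp53 hn hh uz hl hli
  obtain ⟨⟨y0, e0⟩, ⟨y1, e1⟩⟩ := g
  obtain ⟨⟨y2, e2⟩, -, -⟩ := h2 p h a b z (by omega) hh uz
  refine ⟨x, hx, rx, x * (y0 + 8 * z * li * y1 + (8 * z + 64 * z ^ 2) * li ^ 2 * y2), ?_⟩
  rw [k a b a' b' ha hb, e0, e1, e2]
  linear_combination ((p : ZMod (p ^ 3)) * x * s) * hb

/-- the transformation `z -> 1/(4096 z)` -/
theorem gd_fr (h3 : S_E3) (h2 : S_E2) (hp53 : 53 ≤ p) (hn : p = 2 * n + 1) (hh : 2 * h = 1)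
    {z z' a b b0 s : ZMod (p ^ 3)} (hzz : 4096 * z * z' = 1) (hb0 : b0 = a * h - b) (g : Gd p h a b0 z' s) :
    ∃ c : ZMod (p ^ 3), c ^ 2 = 1 ∧ red p c = (-1) ^ n * (red p z) ^ n ∧ Gd p h a b z (c * s) := by
  obtain ⟨c, hc, rc, k⟩ := h3 p n h z z' (by omega) hn hh hzz
  have uz' : IsUnit z' := IsUnit.of_mul_eq_one (4096 * z) (by linear_combination hzz)
  obtain ⟨⟨y2, e2⟩, -, -⟩ := h2 p h a b0 z' (by omega) hh uz'
  obtain ⟨⟨y0, e0⟩, ⟨y1, e1⟩⟩ := g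
  obtain ⟨k0, k1⟩ := k a b
  rw [← hb0, e0, e1, e2] at k0
  rw [← hb0, e1, e2] at k1
  refine ⟨c, hc, rc, ⟨-c * (y0 - h * y1 + h ^ 2 * y2), ?_⟩, ⟨c * (y1 - y2), ?_⟩⟩
  · rw [k0, hb0]
    ring
  · rw [k1]
    ring

/-- good points from two sums -/
theorem gd_start (h2 : S_E2) (hp53 : 53 ≤ p) (hh : 2 * h = 1) {z a b s t0 t u y y' : ZMod (p ^ 3)} (hu : 8 * z * u = 1)
    (ht0 : t0 = s * b) (ht : t = s * (b + 8 * z * (a + b)))
    (hA : ∑ k ∈ range p, (a * (k : ZMod (p ^ 3)) + b) * ((uc k : ZMod (p ^ 3)) * z ^ k) =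
      (p : ZMod (p ^ 3)) * t0 + (p : ZMod (p ^ 3)) ^ 2 * y)
    (hB : ∑ k ∈ range (2 * p), (a * (k : ZMod (p ^ 3)) + b) * ((uc k : ZMod (p ^ 3)) * z ^ k) =
      (p : ZMod (p ^ 3)) * t + (p : ZMod (p ^ 3)) ^ 2 * y') : Gd p h a b z s := by
  have uz : IsUnit z := IsUnit.of_mul_eq_one (8 * u) (by linear_combination hu)
  obtain ⟨⟨y2, e2⟩, k0, k1⟩ := h2 p h a b z (by omega) hh uz
  rw [hA, ht0] at k0
  rw [hA, hB, ht, ht0] at k1
  have k2 : WS p a b z 1 = (p : ZMod (p ^ 3)) * s * (a + b) + (p : ZMod (p ^ 3)) ^ 2 * (u * (y' - y)) := by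
    linear_combination u * k1 + ((p : ZMod (p ^ 3)) * s * (a + b) - WS p a b z 1) * hu
  refine ⟨⟨y, ?_⟩, ⟨u * (y' - y) - y - y2, ?_⟩⟩
  · rw [k0]
    ring
  · unfold c1
    rw [e2, k0, k2]
    ring

/-! ### the starting points -/

omit hp in
theorem ndvd_small (hp53 : 53 ≤ p) {q : ℤ} (h0 : 0 < q) (h1 : q < 53) : ¬ (p : ℤ) ∣ q := by
  intro hq
  have := Int.le_of_dvd h0 hq
  omega

theorem ndvd_mul {a b : ℤ} (ha : ¬ (p : ℤ) ∣ a) (hb : ¬ (p : ℤ) ∣ b) : ¬ (p : ℤ) ∣ a * b := by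
  intro hab
  rcases (Nat.prime_iff_prime_int.mp hp.out).dvd_mul.mp hab with h1 | h1
  · exact ha h1
  · exact hb h1

theorem ndvd_pow {a : ℤ} (ha : ¬ (p : ℤ) ∣ a) (k : ℕ) : ¬ (p : ℤ) ∣ a ^ k :=
  fun hk => ha ((Nat.prime_iff_prime_int.mp hp.out).dvd_of_dvd_pow hk)

theorem start_a (ha : S_a) (h2 : S_E2) (hp53 : 53 ≤ p) (hh : 2 * h = 1) : Gd p h 21 8 1 1 := by
  obtain ⟨a1, a2⟩ := ha p (by omega)
  have r1 : Rep p (1 : ℚ) (1 : ZMod (p ^ 3)) := by simpa using Rep.int (p := p) 1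
  obtain ⟨y, hA⟩ := of_I (c := 8) (by push_cast; exact a1) (rep_SU (a := 21) (b := 8) r1 p)
  obtain ⟨y', hB⟩ := of_I (c := 240) (by push_cast; exact a2) (rep_SU (a := 21) (b := 8) r1 (2 * p))
  push_cast at hA hB
  exact gd_start h2 hp53 hh (u := h ^ 3) (by linear_combination (4 * h ^ 2 + 2 * h + 1) * hh) (by norm_num) (by norm_num) hA hB

theorem start_b (hb : S_b) (h2 : S_E2) (hp53 : 53 ≤ p) (hh : 2 * h = 1) : Gd p h 3 1 (h ^ 4) 1 := by
  obtain ⟨a1, a2⟩ := hb p (by omega)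
  have k : ∀ m, (2 * h) ^ m = 1 := fun m => by rw [hh, one_pow]
  have r1 : Rep p (1 / 16 : ℚ) (h ^ 4) :=
    ⟨1, 16, ndvd_small hp53 (by norm_num) (by norm_num), by norm_num, by push_cast; linear_combination -k 4⟩
  obtain ⟨y, hA⟩ := of_I (c := 1) (by push_cast; rw [one_mul]; exact a1) (rep_SU (a := 3) (b := 1) r1 p)
  obtain ⟨y', hB⟩ := of_I (c := 3) (by push_cast; exact a2) (rep_SU (a := 3) (b := 1) r1 (2 * p))
  push_cast at hA hB
  refine gd_start h2 hp53 hh (u := 2) ?_ (by norm_num) ?_ hA hB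
  · linear_combination k 4
  · linear_combination (-2 : ZMod (p ^ 3)) * k 4

theorem start_c (hc : S_c) (h2 : S_E2) (hp53 : 53 ≤ p) (hh : 2 * h = 1) : Gd p h 3 1 (-h ^ 3) ((-1) ^ (p / 2)) := by
  obtain ⟨a1, a2⟩ := hc p (by omega)
  have k : ∀ m, (2 * h) ^ m = 1 := fun m => by rw [hh, one_pow]
  have r1 : Rep p (-1 / 8 : ℚ) (-h ^ 3) :=
    ⟨-1, 8, ndvd_small hp53 (by norm_num) (by norm_num), by norm_num, by push_cast; linear_combination k 3⟩
  obtain ⟨y, hA⟩ := of_I (c := (-1) ^ (p / 2)) (by push_cast; exact a1) (rep_SU (a := 3) (b := 1) r1 p)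
  obtain ⟨y', hB⟩ := of_I (c := -3 * (-1) ^ (p / 2)) (by
    have e : SU ((3 : ℤ) : ℚ) ((1 : ℤ) : ℚ) (-1 / 8) (2 * p) - ((-3 * (-1) ^ (p / 2) : ℤ) : ℚ) * p =
        SU 3 1 (-1 / 8) (2 * p) + 3 * (-1) ^ (p / 2) * p := by
      push_cast
      ring
    rw [e]
    exact a2) (rep_SU (a := 3) (b := 1) r1 (2 * p))
  push_cast at hA hB
  refine gd_start h2 hp53 hh (u := -1) ?_ (by rw [mul_one]) ?_ hA hB
  · linear_combination k 3
  · linear_combination (4 * (-1) ^ (p / 2)) * k 3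

theorem start_d (hd : S_d) (h2 : S_E2) (h3 : S_E3) (hp53 : 53 ≤ p) (hn : p = 2 * n + 1) (hh : 2 * h = 1) :
    Gd p h 4 1 (-h ^ 6) ((-1) ^ (p / 2)) := by
  have a1 := hd p (by omega)
  have k : ∀ m, (2 * h) ^ m = 1 := fun m => by rw [hh, one_pow]
  have kr := red_h_pow hn hh
  have r1 : Rep p (-1 / 64 : ℚ) (-h ^ 6) :=
    ⟨-1, 64, (by
      have : ¬ (p : ℤ) ∣ 8 * 8 := ndvd_mul (ndvd_small hp53 (by norm_num) (by norm_num)) (ndvd_small hp53 (by norm_num) (by norm_num))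
      norm_num at this
      exact this), by norm_num, by push_cast; linear_combination k 6⟩
  obtain ⟨y, hA⟩ := of_I (c := (-1) ^ (p / 2)) (by push_cast; exact a1) (rep_SU (a := 4) (b := 1) r1 p)
  push_cast at hA
  have hzz : 4096 * (-h ^ 6) * (-h ^ 6) = 1 := by linear_combination k 12
  have uz : IsUnit (-h ^ 6) := IsUnit.of_mul_eq_one (4096 * (-h ^ 6)) (by linear_combination hzz)
  obtain ⟨⟨y2, e2⟩, k0, -⟩ := h2 p h 4 1 (-h ^ 6) (by omega) hh uz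
  rw [hA] at k0
  obtain ⟨c, hc, rc, kk⟩ := h3 p n h (-h ^ 6) (-h ^ 6) (by omega) hn hh hzz
  have hc1 : c = 1 := by
    apply sq_one_red (by omega) hc (one_pow 2)
    rw [rc, map_one, ← mul_pow, map_neg, map_pow]
    have e : (-1 : ZMod p) * -(red p h) ^ 6 = (red p h) ^ (2 * 3) := by ring
    rw [e, ← pow_mul, show 2 * 3 * n = 2 * n * 3 by ring, pow_mul, kr, one_pow]
  have q := (kk 4 1).1
  have e4 : (4 : ZMod (p ^ 3)) * h - 1 = 1 := by linear_combination 2 * hh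
  rw [e4, hc1, k0, e2] at q
  refine ⟨⟨y, by rw [k0]; ring⟩, ⟨4 * y + h * y2, ?_⟩⟩
  linear_combination (-2 : ZMod (p ^ 3)) * q + (c1 h (WS p 4 1 (-h ^ 6)) * (-1) - (p : ZMod (p ^ 3)) ^ 2 * y2 * h * (-1)) * hh

/-! ### the five congruences -/

/-- the last step -/
theorem fin {a b m A : ℤ} (hp53 : 53 ≤ p) (hn : p = 2 * n + 1) (hm : ¬ (p : ℤ) ∣ m) {w x s : ZMod (p ^ 3)}
    (hw : (m : ZMod (p ^ 3)) * w = 1) (hx : x ^ 2 = 1) (hs : s ^ 2 = 1)
    (hr : red p x * red p s = (A : ZMod p) ^ n)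
    (h : ∃ y : ZMod (p ^ 3), ∑ j ∈ range p, ((a : ZMod (p ^ 3)) * (j : ZMod (p ^ 3)) + (b : ZMod (p ^ 3))) * ((v1 j : ZMod (p ^ 3)) * w ^ j) =
      (p : ZMod (p ^ 3)) * (x * s) * (b : ZMod (p ^ 3)) + (p : ZMod (p ^ 3)) ^ 2 * y) :
    Cong p (T6 a b m p) (b * p * legendreSym p A) := by
  obtain ⟨y, hy⟩ := h
  have e : x * s = ((legendreSym p A : ℤ) : ZMod (p ^ 3)) := by
    apply leg_sq_one (by omega) hn
    · rw [mul_pow, hx, hs, one_mul]
    · rw [map_mul, hr, map_intCast]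
  rw [e] at hy
  exact cong_T6 hm hw hy

theorem five_1 (ha : S_a) (h1 : S_E1) (h2 : S_E2) (hp53 : 53 ≤ p) (hn : p = 2 * n + 1) (hh : 2 * h = 1) :
    Cong p (T6 63 8 ((-15) ^ 3) p) (8 * p * legendreSym p (-15)) := by
  have nd : ¬ (p : ℤ) ∣ 15 := ndvd_small hp53 (by norm_num) (by norm_num)
  obtain ⟨i, hi⟩ := inv_exists nd
  push_cast at hi
  obtain ⟨x, hx, rx, hy⟩ := gd_sum h1 h2 hp53 hn hh (l := -15) (li := -i) (a' := 63) (b' := 8) isUnit_one (by norm_num)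
    (by linear_combination hi) (gd_smul (-5 * h) (start_a ha h2 hp53 hh)) (by linear_combination (-945 : ZMod (p ^ 3)) * hh)
    (by linear_combination (56 * h) * hi + 8 * hh)
  have := fin (a := 63) (b := 8) (m := (-15) ^ 3) (A := -15) (s := 1) hp53 hn
    (ndvd_pow (fun hd => nd ((Int.dvd_neg).mp hd)) 3) (w := 1 ^ 2 * (-i) ^ 3) (by
      push_cast
      linear_combination (225 * i ^ 2 + 15 * i + 1) * hi) hx (one_pow 2) (by
      rw [map_one, mul_one, rx]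
      push_cast
      rw [map_neg, map_ofNat]) (by push_cast; exact hy)
  push_cast at this
  exact this

theorem five_2 (ha : S_a) (h1 : S_E1) (h2 : S_E2) (h3 : S_E3) (hp53 : 53 ≤ p) (hn : p = 2 * n + 1) (hh : 2 * h = 1) :
    Cong p (T6 133 8 (255 ^ 3) p) (8 * p * legendreSym p (-255)) := by
  have k : ∀ m, (2 * h) ^ m = 1 := fun m => by rw [hh, one_pow]
  have kr := red_h_pow hn hh
  have n3 : ¬ (p : ℤ) ∣ 3 := ndvd_small hp53 (by norm_num) (by norm_num)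
  have nd : ¬ (p : ℤ) ∣ 255 := by
    have : ¬ (p : ℤ) ∣ 15 * 17 := ndvd_mul (ndvd_small hp53 (by norm_num) (by norm_num)) (ndvd_small hp53 (by norm_num) (by norm_num))
    norm_num at this
    exact this
  obtain ⟨i3, h3i⟩ := inv_exists n3
  obtain ⟨i, hi⟩ := inv_exists nd
  push_cast at hi h3i
  have K3 : 27 * i3 ^ 3 = 1 := by linear_combination (9 * i3 ^ 2 + 3 * i3 + 1) * h3i
  have uh : IsUnit (h ^ 12) := IsUnit.of_mul_eq_one (2 ^ 12) (by linear_combination k 12)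
  obtain ⟨c, hc, rc, g⟩ := gd_fr h3 h2 hp53 hn hh (z := h ^ 12) (z' := 1) (a := 21) (b := 5 * h) (b0 := 8)
    (by linear_combination k 12) (by linear_combination (-8 : ZMod (p ^ 3)) * hh) (start_a ha h2 hp53 hh)
  have e1 : 85 * i = i3 := by linear_combination i3 * hi - 85 * i * h3i
  have e2 : 43008 * h ^ 12 = 21 * h := by linear_combination (21 * h) * k 12 - (43008 * h ^ 12) * hh
  obtain ⟨x, hx, rx, hy⟩ := gd_sum h1 h2 hp53 hn hh (l := 255 * h ^ 8) (li := 256 * i) (a' := 133) (b' := 8) uh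
    (by linear_combination k 8 + h ^ 8 * k 4)
    (by linear_combination (255 * i) * k 8 + hi) (gd_smul (85 * i3 ^ 3) g)
    (by linear_combination (1785 * i3 ^ 3) * (-2 * k 8 + h ^ 8 * k 4) + 33915 * h ^ 8 * K3)
    (by linear_combination (43008 * h ^ 12 * i3 ^ 3) * e1 + i3 ^ 4 * e2 + 7 * h * i3 ^ 3 * h3i + 16 * h * K3 + 8 * hh)
  have := fin (a := 133) (b := 8) (m := 255 ^ 3) (A := -255) (s := c * 1) hp53 hn
    (ndvd_pow nd 3) (w := (h ^ 12) ^ 2 * (256 * i) ^ 3) (by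
      push_cast
      have hi3 : (255 * i) ^ 3 = 1 := by rw [hi, one_pow]
      linear_combination (255 * i) ^ 3 * k 24 + hi3) hx (by rw [mul_one]; exact hc) (by
      rw [mul_one, rx, rc]
      push_cast
      rw [map_mul, map_ofNat, map_pow, map_pow, ← mul_pow, ← mul_pow]
      have e : (255 : ZMod p) * red p h ^ 8 * (-1 * red p h ^ 12) = -255 * (red p h) ^ (2 * 10) := by ring
      rw [e, mul_pow, ← pow_mul, show 2 * 10 * n = 2 * n * 10 by ring, pow_mul, kr, one_pow, mul_one]) (by push_cast; exact hy)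
  push_cast at this
  exact this

theorem five_3 (hd : S_d) (h1 : S_E1) (h2 : S_E2) (h3 : S_E3) (hp53 : 53 ≤ p) (hn : p = 2 * n + 1) (hh : 2 * h = 1) :
    Cong p (T6 28 3 (20 ^ 3) p) (3 * p * legendreSym p (-5)) := by
  have k : ∀ m, (2 * h) ^ m = 1 := fun m => by rw [hh, one_pow]
  have kr := red_h_pow hn hh
  have nd : ¬ (p : ℤ) ∣ 20 := ndvd_small hp53 (by norm_num) (by norm_num)
  obtain ⟨i, hi⟩ := inv_exists nd
  push_cast at hi
  have uh : IsUnit (-h ^ 6) := IsUnit.of_mul_eq_one (-2 ^ 6) (by linear_combination k 6)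
  obtain ⟨x, hx, rx, hy⟩ := gd_sum h1 h2 hp53 hn hh (l := 5 * h ^ 2) (li := 16 * i) (a' := 28) (b' := 3) uh
    (by linear_combination (-h ^ 2) * k 4 + k 2)
    (by linear_combination (20 * i) * k 2 + hi) (gd_smul 5 (start_d hd h2 h3 hp53 hn hh))
    (by linear_combination (-20 * h ^ 2) * k 4 - 40 * k 2)
    (by linear_combination (-128 * h ^ 6) * hi - 2 * k 6)
  have := fin (a := 28) (b := 3) (m := 20 ^ 3) (A := -5) (s := (-1) ^ (p / 2)) hp53 hn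
    (ndvd_pow nd 3) (w := (-h ^ 6) ^ 2 * (16 * i) ^ 3) (by
      push_cast
      have hi3 : (20 * i) ^ 3 = 1 := by rw [hi, one_pow]
      linear_combination (20 * i) ^ 3 * k 12 + hi3) hx (by rw [← pow_mul, mul_comm, pow_mul]; norm_num) (by
      rw [rx, show p / 2 = n by omega, map_pow, map_neg, map_one]
      push_cast
      rw [map_mul, map_ofNat, map_pow, ← mul_pow]
      have e : (5 : ZMod p) * red p h ^ 2 * (-1) = -5 * (red p h) ^ (2 * 1) := by ring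
      rw [e, mul_pow, ← pow_mul, show 2 * 1 * n = 2 * n by ring, kr, mul_one]) (by push_cast; exact hy)
  push_cast at this
  exact this

theorem five_4 (hc : S_c) (h1 : S_E1) (h2 : S_E2) (h3 : S_E3) (hp53 : 53 ≤ p) (hn : p = 2 * n + 1) (hh : 2 * h = 1) :
    Cong p (T6 63 5 (66 ^ 3) p) (5 * p * legendreSym p (-33)) := by
  have k : ∀ m, (2 * h) ^ m = 1 := fun m => by rw [hh, one_pow]
  have kr := red_h_pow hn hh
  have nd : ¬ (p : ℤ) ∣ 66 := by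
    have : ¬ (p : ℤ) ∣ 6 * 11 := ndvd_mul (ndvd_small hp53 (by norm_num) (by norm_num)) (ndvd_small hp53 (by norm_num) (by norm_num))
    norm_num at this
    exact this
  obtain ⟨i, hi⟩ := inv_exists nd
  push_cast at hi
  have uh : IsUnit (-h ^ 9) := IsUnit.of_mul_eq_one (-2 ^ 9) (by linear_combination k 9)
  obtain ⟨c, hcc, rc, g⟩ := gd_fr h3 h2 hp53 hn hh (z := -h ^ 9) (z' := -h ^ 3) (a := 3) (b := h) (b0 := 1)
    (by linear_combination k 12) (by linear_combination -hh) (start_c hc h2 hp53 hh)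
  obtain ⟨x, hx, rx, hy⟩ := gd_sum h1 h2 hp53 hn hh (l := 33 * h ^ 5) (li := 64 * i) (a' := 63) (b' := 5) uh
    (by linear_combination (-h ^ 5) * k 4 + k 5)
    (by linear_combination (66 * i) * k 5 + hi) (gd_smul 11 g)
    (by linear_combination (-33 * h ^ 5) * k 4 - 66 * k 5)
    (by linear_combination (-256 * h ^ 9) * hi - h * k 8 + 5 * hh)
  have := fin (a := 63) (b := 5) (m := 66 ^ 3) (A := -33) (s := c * (-1) ^ (p / 2)) hp53 hn
    (ndvd_pow nd 3) (w := (-h ^ 9) ^ 2 * (64 * i) ^ 3) (by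
      push_cast
      have hi3 : (66 * i) ^ 3 = 1 := by rw [hi, one_pow]
      linear_combination (66 * i) ^ 3 * k 18 + hi3) hx (by
      rw [mul_pow, hcc, one_mul, ← pow_mul, mul_comm, pow_mul]; norm_num) (by
      rw [map_mul, rx, rc, show p / 2 = n by omega, map_pow, map_neg, map_neg, map_one]
      push_cast
      rw [map_mul, map_ofNat, map_pow, map_pow, ← mul_pow, ← mul_pow, ← mul_pow]
      have e : (33 : ZMod p) * red p h ^ 5 * (-1 * -(red p h) ^ 9 * (-1)) = -33 * (red p h) ^ (2 * 7) := by ring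
      rw [e, mul_pow, ← pow_mul, show 2 * 7 * n = 2 * n * 7 by ring, pow_mul, kr, one_pow, mul_one]) (by push_cast; exact hy)
  push_cast at this
  exact this

theorem five_5 (hb : S_b) (h1 : S_E1) (h2 : S_E2) (h3 : S_E3) (hp53 : 53 ≤ p) (hn : p = 2 * n + 1) (hh : 2 * h = 1) :
    Cong p (T6 11 1 54000 p) (p * legendreSym p (-15)) := by
  have k : ∀ m, (2 * h) ^ m = 1 := fun m => by rw [hh, one_pow]
  have kr := red_h_pow hn hh
  have n3 : ¬ (p : ℤ) ∣ 3 := ndvd_small hp53 (by norm_num) (by norm_num)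
  have n15 : ¬ (p : ℤ) ∣ 15 := ndvd_small hp53 (by norm_num) (by norm_num)
  have nd : ¬ (p : ℤ) ∣ 54000 := by
    have : ¬ (p : ℤ) ∣ 40 * 30 * 45 := ndvd_mul (ndvd_mul (ndvd_small hp53 (by norm_num) (by norm_num))
      (ndvd_small hp53 (by norm_num) (by norm_num))) (ndvd_small hp53 (by norm_num) (by norm_num))
    norm_num at this
    exact this
  obtain ⟨i3, h3i⟩ := inv_exists n3
  obtain ⟨i, hi⟩ := inv_exists n15
  push_cast at hi h3i
  have uh : IsUnit (h ^ 8) := IsUnit.of_mul_eq_one (2 ^ 8) (by linear_combination k 8)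
  obtain ⟨c, hc, rc, g⟩ := gd_fr h3 h2 hp53 hn hh (z := h ^ 8) (z' := h ^ 4) (a := 3) (b := h) (b0 := 1)
    (by linear_combination k 12) (by linear_combination -hh) (start_b hb h2 hp53 hh)
  obtain ⟨x, hx, rx, hy⟩ := gd_sum h1 h2 hp53 hn hh (l := 15 * h ^ 4) (li := 16 * i) (a' := 11) (b' := 1) uh
    (by linear_combination (h ^ 4 + 1) * k 4)
    (by linear_combination (15 * i) * k 4 + hi) (gd_smul (5 * i3) g)
    (by linear_combination (5 * (2 + 16 * h ^ 8)) * h3i + (5 * h ^ 4 - 10) * k 4)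
    (by linear_combination (128 * h ^ 8 * i3) * hi + (i3 * h) * k 8 - (128 * h ^ 8 * i3) * hh + 2 * h * h3i + hh)
  have := fin (a := 11) (b := 1) (m := 54000) (A := -15) (s := c * 1) hp53 hn
    nd (w := (h ^ 8) ^ 2 * (16 * i) ^ 3) (by
      push_cast
      have hi3 : (15 * i) ^ 3 = 1 := by rw [hi, one_pow]
      linear_combination (15 * i) ^ 3 * k 16 + hi3) hx (by rw [mul_one]; exact hc) (by
      rw [mul_one, rx, rc]
      push_cast
      rw [map_mul, map_ofNat, map_pow, map_pow, ← mul_pow, ← mul_pow]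
      have e : (15 : ZMod p) * red p h ^ 4 * (-1 * red p h ^ 8) = -15 * (red p h) ^ (2 * 6) := by ring
      rw [e, mul_pow, ← pow_mul, show 2 * 6 * n = 2 * n * 6 by ring, pow_mul, kr, one_pow, mul_one]) (by push_cast; exact hy)
  push_cast at this
  rw [one_mul] at this
  exact this

end

/-- five of the six congruences for the primes `p ≥ 53` -/
theorem five (ha : S_a) (hb : S_b) (hc : S_c) (hd : S_d) (h1 : S_E1) (h2 : S_E2) (h3 : S_E3) :
    ∀ (p : ℕ) [Fact p.Prime], 53 ≤ p → Five p := by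
  intro p hp hp53
  obtain ⟨h, hh⟩ := exists_half' (p := p) (by omega)
  obtain ⟨n, hn⟩ : ∃ n, p = 2 * n + 1 := hp.out.odd_of_ne_two (by omega)
  exact ⟨five_1 ha h1 h2 hp53 hn hh, five_2 ha h1 h2 h3 hp53 hn hh, five_3 hd h1 h2 h3 hp53 hn hh,
    five_4 hc h1 h2 h3 hp53 hn hh, five_5 hb h1 h2 h3 hp53 hn hh⟩

end Pool.Agent.H249.C9
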